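import Mathlib

/-!
# No integral of a nontrivial finite group generates the variety of integrals

If `H` is an integral of a finite group `G` and `e = |Aut G|`, then `[[x, y], z ^ e] = 1` is a law of
`H`, since `H` acts on its derived subgroup through the finite group `Aut G`. If `G` is nontrivial,
this law fails in the wreath product of `G` with the infinite cyclic group, whose derived subgroup
lies in a power of `G` and hence in `Var G`.
-/

set_option autoImplicit false

open scoped commutatorElement

namespace Pool.Agent.Results.MP_4ce577_al.NoGeneratingIntegral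

universe u

/-- The word `w` in the letters `x₀, x₁, ...` is a law of the group `G`. -/
def IsLaw (w : FreeGroup ℕ) (G : Type u) [Group G] : Prop :=
  ∀ f : ℕ → G, FreeGroup.lift f w = 1

/-- The group `K` lies in the variety generated by `G`: each law of `G` is a law of `K`. -/
def InVar (G : Type u) [Group G] (K : Type u) [Group K] : Prop :=
  ∀ w : FreeGroup ℕ, IsLaw w G → IsLaw w K

/-- `H` is an integral of `G`: the derived subgroup of `H` is isomorphic to `G`. -/
def IsIntegral (H : Type u) [Group H] (G : Type u) [Group G] : Prop :=
  Nonempty (commutator H ≃* G)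

/-- The word `[[x₀, x₁], x₂ ^ e]`. -/
def wd (e : ℕ) : FreeGroup ℕ :=
  ⁅⁅FreeGroup.of 0, FreeGroup.of 1⁆, (FreeGroup.of 2) ^ e⁆

theorem lift_wd (e : ℕ) {G : Type u} [Group G] (f : ℕ → G) :
    FreeGroup.lift f (wd e) = ⁅⁅f 0, f 1⁆, f 2 ^ e⁆ := by
  simp [wd, map_commutatorElement]

theorem law_of_integral (G : Type u) [Group G] [Finite G] (H : Type u) [Group H]
    (h : IsIntegral H G) : IsLaw (wd (Nat.card (MulAut (commutator H)))) H := by
  obtain ⟨φ⟩ := h
  haveI : Finite (commutator H) := Finite.of_equiv G φ.symm.toEquiv
  haveI : Finite (MulAut (commutator H)) := by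
    refine Finite.of_injective (fun α : MulAut (commutator H) => (α : commutator H → commutator H)) ?_
    intro a b hab
    ext x
    exact congrArg Subtype.val (congrFun hab x)
  intro f
  rw [lift_wd, commutatorElement_eq_one_iff_mul_comm]
  have h1 : MulAut.conjNormal (f 2 ^ Nat.card (MulAut (commutator H))) =
      (1 : MulAut (commutator H)) := by
    rw [map_pow, pow_card_eq_one']
  have h2 : ⁅f 0, f 1⁆ ∈ commutator H :=
    Subgroup.commutator_mem_commutator (Subgroup.mem_top _) (Subgroup.mem_top _)
  have h3 := congrArg (fun α : MulAut (commutator H) => ((α ⟨_, h2⟩ : commutator H) : H)) h1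
  simp only [MulAut.conjNormal_apply, MulAut.one_apply] at h3
  rw [mul_inv_eq_iff_eq_mul] at h3
  exact h3.symm

section Wreath

variable (C : Type u) [Group C]

/-- The shift action of the integers on sequences. -/
def shiftEquiv (n : ℤ) : (ℤ → C) ≃* (ℤ → C) where
  toFun b := fun i => b (i - n)
  invFun b := fun i => b (i + n)
  left_inv b := by funext i; simp
  right_inv b := by funext i; simp
  map_mul' a b := rfl

/-- The shift action as a homomorphism. -/
def shift : Multiplicative ℤ →* MulAut (ℤ → C) where
  toFun n := shiftEquiv C n.toAdd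
  map_one' := by
    ext b i
    simp [shiftEquiv]
  map_mul' m n := by
    ext b i
    simp [shiftEquiv, sub_sub]

/-- The (unrestricted) wreath product of `C` with the infinite cyclic group. -/
abbrev W : Type u := (ℤ → C) ⋊[shift C] Multiplicative ℤ

theorem comm_left (x : W C) (hx : x ∈ commutator (W C)) : x.right = 1 := by
  have h : commutator (W C) ≤ (SemidirectProduct.rightHom : W C →* Multiplicative ℤ).ker :=
    Abelianization.commutator_subset_ker _
  exact h hx

/-- The left coordinate is a homomorphism on the derived subgroup. -/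
def leftHom : commutator (W C) →* (ℤ → C) where
  toFun x := x.1.left
  map_one' := rfl
  map_mul' x y := by
    have := comm_left C x.1 x.2
    simp [SemidirectProduct.mul_left, this]

theorem inVar_comm (G : Type u) [Group G] (hC : ∀ w : FreeGroup ℕ, IsLaw w G → IsLaw w C) :
    InVar G (commutator (W C)) := by
  intro w hw f
  have h1 : leftHom C (FreeGroup.lift f w) = 1 := by
    funext i
    have h2 := hC w hw fun j => leftHom C (f j) i
    have h3 : FreeGroup.lift (fun j => leftHom C (f j) i) =
        ((Pi.evalMonoidHom (fun _ : ℤ => C) i).comp (leftHom C)).comp (FreeGroup.lift f) := by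
      ext j
      simp
    rw [h3] at h2
    exact h2
  apply Subtype.ext
  apply SemidirectProduct.ext
  · exact h1
  · exact comm_left C _ (FreeGroup.lift f w).2

theorem not_law (e : ℕ) (he : 0 < e) (c : C) (hc : c ≠ 1) : ¬ IsLaw (wd e) (W C) := by
  intro h
  have h1 := h fun i => if i = 0 then SemidirectProduct.inl (Pi.mulSingle 0 c)
    else SemidirectProduct.inr (Multiplicative.ofAdd 1)
  rw [lift_wd, commutatorElement_eq_one_iff_mul_comm] at h1
  have h2 := congrArg (fun x : W C => x.left 0) h1
  have he' : ((e : ℤ)) ≠ 0 := by exact_mod_cast he.ne'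
  have he1 : (-(e : ℤ)) ≠ 0 := by omega
  have he2 : (-(e : ℤ) - 1) ≠ 0 := by omega
  have he3 : (-1 : ℤ) ≠ 0 := by omega
  simp only [commutatorElement_def, if_true, if_false, one_ne_zero, OfNat.ofNat_ne_zero,
    ← map_pow, ← map_inv, SemidirectProduct.mul_left, SemidirectProduct.mul_right,
    SemidirectProduct.left_inl, SemidirectProduct.right_inl, SemidirectProduct.left_inr,
    SemidirectProduct.right_inr, Pi.mul_apply] at h2
  simp [shift, shiftEquiv, Pi.mulSingle_apply, he', he1, he2] at h2
  exact hc h2

end Wreath

/-- No integral `H` of a nontrivial finite group `G` generates the variety of all groups whose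
derived subgroup lies in `Var G`: some group `K` has its derived subgroup in `Var G`, but does not
lie in `Var H`. Moreover nontrivial finite groups with an integral exist. -/
theorem result :
    (∀ (G : Type u) [Group G] [Finite G] [Nontrivial G] (H : Type u) [Group H], IsIntegral H G →
      ¬ ∀ (K : Type u) [Group K], InVar H K ↔ InVar G (commutator K)) ∧
    (∃ (G : Type u) (_ : Group G), Finite G ∧ Nontrivial G ∧
      ∃ (H : Type u) (_ : Group H), IsIntegral H G) := by
  refine ⟨?_, ?_⟩
  · intro G _ _ _ H _ hH hK
    obtain ⟨g, hg⟩ := exists_ne (1 : G)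
    have h1 := (hK (W G)).2 (inVar_comm G G fun w hw => hw)
    haveI : Finite (commutator H) := Finite.of_equiv G hH.some.symm.toEquiv
    haveI : Finite (MulAut (commutator H)) := by
      refine Finite.of_injective
        (fun α : MulAut (commutator H) => (α : commutator H → commutator H)) ?_
      intro a b hab
      ext x
      exact congrArg Subtype.val (congrFun hab x)
    exact not_law G _ Nat.card_pos g hg (h1 _ (law_of_integral G H hH))
  · refine ⟨commutator (ULift.{u} (Equiv.Perm (Fin 3))), inferInstance, inferInstance, ?_,
      ULift.{u} (Equiv.Perm (Fin 3)), inferInstance, ⟨MulEquiv.refl _⟩⟩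
    rw [Subgroup.nontrivial_iff_ne_bot]
    intro h
    have h1 : ⁅(⟨Equiv.swap 0 1⟩ : ULift.{u} (Equiv.Perm (Fin 3))), ⟨Equiv.swap 1 2⟩⁆ ∈
        commutator (ULift.{u} (Equiv.Perm (Fin 3))) :=
      Subgroup.commutator_mem_commutator (Subgroup.mem_top _) (Subgroup.mem_top _)
    rw [h, Subgroup.mem_bot] at h1
    have h2 := congrArg ULift.down h1
    revert h2
    change ¬ (⁅(Equiv.swap 0 1 : Equiv.Perm (Fin 3)), (Equiv.swap 1 2 : Equiv.Perm (Fin 3))⁆ = 1)
    rw [commutatorElement_def]
    decide

end Pool.Agent.Results.MP_4ce577_al.NoGeneratingIntegral
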